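import Pool.Agent.helper28.EG.SpecP

/-!
# p2x:PIT (helper88): iterates near a parabolic point as long as the total displacement is small
-/

set_option autoImplicit false

open Complex Metric Set Filter Topology MeasureTheory
open WP (it)

noncomputable section

namespace EG

theorem PIT : PIT_stmt := by
  intro g p ν h hP
  obtain ⟨hdif, hν, han, h0, heq⟩ := hP
  set α : ℂ := h p with hα
  have hαn : 0 < ‖α‖ := norm_pos_iff.2 h0
  -- continuity of `(w, x) ↦ (1 + w)^(ν+1) h x`
  have hc : ContinuousAt (fun q : ℂ × ℂ => (1 + q.1) ^ (ν + 1) * h q.2) ((0 : ℂ), p) := by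
    refine ContinuousAt.mul ?_ ?_
    · exact (continuousAt_const.add continuousAt_fst).pow (ν + 1)
    · exact ContinuousAt.comp (f := fun q : ℂ × ℂ => q.2) (g := h) (x := ((0 : ℂ), p)) han.continuousAt continuousAt_snd
  have hc0 : (fun q : ℂ × ℂ => (1 + q.1) ^ (ν + 1) * h q.2) ((0 : ℂ), p) = α := by
    simp [hα]
  obtain ⟨ε₁, hε₁, hb1⟩ := Metric.continuousAt_iff.1 hc (‖α‖ / 10) (by positivity)
  obtain ⟨ε₂, hε₂, hb2⟩ := Metric.eventually_nhds_iff.1 heq
  set ε : ℝ := min ε₁ ε₂ with hε
  have hεp : 0 < ε := lt_min hε₁ hε₂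
  have hΦ : ∀ w x : ℂ, ‖w‖ < ε → ‖x - p‖ < ε → ‖(1 + w) ^ (ν + 1) * h x - α‖ ≤ ‖α‖ / 10 := by
    intro w x hw hx
    have h1 : dist ((w, x) : ℂ × ℂ) ((0 : ℂ), p) < ε₁ := by
      rw [Prod.dist_eq, dist_eq_norm, dist_eq_norm, sub_zero]
      exact max_lt (lt_of_lt_of_le hw (min_le_left _ _)) (lt_of_lt_of_le hx (min_le_left _ _))
    have h2 := hb1 h1
    have h3 : (1 + ((0 : ℂ), p).1) ^ (ν + 1) * h ((0 : ℂ), p).2 = α := hc0
    rw [h3, dist_eq_norm] at h2
    exact h2.le
  have hE : ∀ x : ℂ, ‖x - p‖ < ε → g x = x + (x - p) ^ (ν + 1) * h x := by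
    intro x hx
    apply hb2
    rw [dist_eq_norm]
    exact lt_of_lt_of_le hx (min_le_right _ _)
  refine ⟨min ((ε / 4) ^ ν) (min (1 / (10 * ‖α‖)) (ε / (4 * ‖α‖))), by positivity, ?_, ?_⟩
  · calc ‖α‖ * min ((ε / 4) ^ ν) (min (1 / (10 * ‖α‖)) (ε / (4 * ‖α‖))) ≤ ‖α‖ * (1 / (10 * ‖α‖)) :=
          mul_le_mul_of_nonneg_left ((min_le_right _ _).trans (min_le_left _ _)) hαn.le
      _ = 1 / 10 := by field_simp
  · intro l z hlz
    have hp0 : g p = p := by
      have := hE p (by rwa [sub_self, norm_zero])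
      rw [sub_self, zero_pow (by omega), zero_mul, add_zero] at this
      exact this
    rcases eq_or_ne z p with rfl | hz
    · have hit : ∀ i : ℕ, g^[i] z = z := by
        intro i
        induction i with
        | zero => rfl
        | succ i ih => rw [Function.iterate_succ_apply', ih, hp0]
      rw [hit l, sub_self, zero_pow (by omega), mul_zero, mul_zero, sub_zero, norm_zero]
      positivity
    have hzp : 0 < ‖z - p‖ := norm_pos_iff.2 (sub_ne_zero.2 hz)
    have hzne : z - p ≠ 0 := sub_ne_zero.2 hz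
    have hind : ∀ i : ℕ, i ≤ l → ‖g^[i] z - z - i * (α * (z - p) ^ (ν + 1))‖ ≤ 1 / 10 * (i * (‖α‖ * ‖z - p‖ ^ (ν + 1))) := by
      intro i
      induction i with
      | zero =>
        intro _
        simp
      | succ i ih =>
        intro hi
        have h1 := ih (by omega)
        have hl1 : 1 ≤ l := by omega
        have hl1' : (1 : ℝ) ≤ l := by exact_mod_cast hl1
        -- the size of `z - p`
        have hpw : 0 < ‖z - p‖ ^ ν := by positivity
        have hd1 : ‖z - p‖ ^ ν ≤ (ε / 4) ^ ν := by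
          have h3 : ‖z - p‖ ^ ν ≤ l * ‖z - p‖ ^ ν := by nlinarith
          exact h3.trans (hlz.trans (min_le_left _ _))
        have hd2 : ‖z - p‖ ≤ ε / 4 := by
          by_contra hcon
          push Not at hcon
          exact absurd (pow_lt_pow_left₀ hcon (by positivity) (by omega)) (not_lt.2 hd1)
        have hil : (i : ℝ) ≤ l := by exact_mod_cast (by omega : i ≤ l)
        -- the relative displacement
        set w : ℂ := (g^[i] z - z) / (z - p) with hw
        have hzi : g^[i] z = p + (z - p) * (1 + w) := by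
          rw [hw]
          field_simp
          ring
        have hwn : ‖w‖ ≤ 11 / 10 * (‖α‖ * (l * ‖z - p‖ ^ ν)) := by
          rw [hw, norm_div, div_le_iff₀ hzp]
          have h3 : ‖g^[i] z - z‖ ≤ 1 / 10 * (i * (‖α‖ * ‖z - p‖ ^ (ν + 1))) + i * (‖α‖ * ‖z - p‖ ^ (ν + 1)) := by
            have h4 := norm_add_le (g^[i] z - z - i * (α * (z - p) ^ (ν + 1))) (i * (α * (z - p) ^ (ν + 1)))
            rw [sub_add_cancel] at h4
            have h5 : ‖(i : ℂ) * (α * (z - p) ^ (ν + 1))‖ = i * (‖α‖ * ‖z - p‖ ^ (ν + 1)) := by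
              rw [norm_mul, norm_mul, norm_pow, Complex.norm_natCast]
            rw [h5] at h4
            linarith
          have h6 : (i : ℝ) * (‖α‖ * ‖z - p‖ ^ (ν + 1)) ≤ l * (‖α‖ * ‖z - p‖ ^ (ν + 1)) :=
            mul_le_mul_of_nonneg_right hil (by positivity)
          have h7 : 11 / 10 * (‖α‖ * (l * ‖z - p‖ ^ ν)) * ‖z - p‖ = 11 / 10 * (l * (‖α‖ * ‖z - p‖ ^ (ν + 1))) := by
            rw [pow_succ]
            ring
          rw [h7]
          linarith
        have hwe : ‖w‖ ≤ 11 / 10 * (ε / 4) := by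
          have h3 : ‖α‖ * (l * ‖z - p‖ ^ ν) ≤ ‖α‖ * (ε / (4 * ‖α‖)) :=
            mul_le_mul_of_nonneg_left (hlz.trans ((min_le_right _ _).trans (min_le_right _ _))) hαn.le
          have h4 : ‖α‖ * (ε / (4 * ‖α‖)) = ε / 4 := by field_simp
          linarith
        have hw1 : ‖w‖ ≤ 1 := by
          have h3 : ‖α‖ * (l * ‖z - p‖ ^ ν) ≤ ‖α‖ * (1 / (10 * ‖α‖)) :=
            mul_le_mul_of_nonneg_left (hlz.trans ((min_le_right _ _).trans (min_le_left _ _))) hαn.le
          have h4 : ‖α‖ * (1 / (10 * ‖α‖)) = 1 / 10 := by field_simp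
          linarith
        have hxp : ‖g^[i] z - p‖ < ε := by
          have h3 : g^[i] z - p = (z - p) * (1 + w) := by
            rw [hzi]
            ring
          rw [h3, norm_mul]
          have h4 : ‖1 + w‖ ≤ 2 := by
            have := norm_add_le (1 : ℂ) w
            rw [norm_one] at this
            linarith
          have h5 : ‖z - p‖ * ‖1 + w‖ ≤ ε / 4 * 2 := mul_le_mul hd2 h4 (norm_nonneg _) (by positivity)
          linarith
        have hΦi := hΦ w (g^[i] z) (by linarith) hxp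
        have hgi := hE (g^[i] z) hxp
        have hkey : g^[i + 1] z - z - ((i + 1 : ℕ) : ℂ) * (α * (z - p) ^ (ν + 1)) =
            (g^[i] z - z - i * (α * (z - p) ^ (ν + 1))) + (z - p) ^ (ν + 1) * ((1 + w) ^ (ν + 1) * h (g^[i] z) - α) := by
          rw [Function.iterate_succ_apply', hgi]
          have h3 : g^[i] z - p = (z - p) * (1 + w) := by
            rw [hzi]
            ring
          rw [h3, mul_pow]
          push_cast
          ring
        rw [hkey]
        refine (norm_add_le _ _).trans ?_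
        rw [norm_mul, norm_pow]
        have h8 : ‖z - p‖ ^ (ν + 1) * ‖(1 + w) ^ (ν + 1) * h (g^[i] z) - α‖ ≤ ‖z - p‖ ^ (ν + 1) * (‖α‖ / 10) :=
          mul_le_mul_of_nonneg_left hΦi (by positivity)
        push_cast
        linarith
    exact hind l le_rfl

end EG
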